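import Pool.Agent.H171R2.Tri.Core

/-!
# Task T6: the payment bound for the 32 words (potential certificates)
-/

namespace Pool.Agent.H171R2.Tri

namespace T6

open Finset

/-! ### the concrete walk of a word -/

def eN (n : ℕ) : ℤ × ℤ :=
  match n % 6 with
  | 0 => (1, 0)
  | 1 => (0, 1)
  | 2 => (-1, 1)
  | 3 => (-1, 0)
  | 4 => (0, -1)
  | _ => (1, -1)

def tauN (c : ℕ) : ℕ := match c with
  | 0 => 0
  | 1 => 1
  | _ => 5

/-- direction of the edge `j` and position of the vertex `j` -/
def st (W : List ℕ) : ℕ → ℕ × (ℤ × ℤ)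
  | 0 => (0, (0, 0))
  | j + 1 => (((st W j).1 + tauN (W.getD (j + 1) 0)) % 6,
      ((st W j).2.1 + (eN (st W j).1).1, (st W j).2.2 + (eN (st W j).1).2))

def ptEq (a b : ℤ × ℤ) : Bool := decide (a.1 = b.1) && decide (a.2 = b.2)

def padd (a b : ℤ × ℤ) : ℤ × ℤ := (a.1 + b.1, a.2 + b.2)

/-- third neighbour of the corner `j` (`j ≥ 1`) -/
def thirdN (W : List ℕ) (j : ℕ) : ℤ × ℤ :=
  padd (st W j).2 (eN ((st W (j - 1)).1 + (if W.getD j 0 = 1 then 5 else 1)))

def geoV (W : List ℕ) (j : ℕ) (c : List ℕ) : Bool :=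
  match c with
  | [0] => Nat.beq (W.getD j 0) 0
  | [1] => true
  | [2, i] => Nat.ble 1 j && (Nat.ble 1 (W.getD j 0) && (Nat.ble (i + 1) W.length &&
      ptEq (thirdN W j) (st W i).2))
  | [3, k, i1, i2] => Nat.ble 1 j && (Nat.ble (i1 + 1) W.length && (Nat.ble (i2 + 1) W.length &&
      (ptEq (padd (thirdN W j) (eN k)) (st W i1).2 &&
        ptEq (padd (thirdN W j) (eN (k + 1))) (st W i2).2)))
  | _ => false

def allN (n : ℕ) (f : ℕ → Bool) : Bool :=
  match n with
  | 0 => true
  | n + 1 => f n && allN n f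

def allB (f : Bool → Bool) : Bool := f false && f true

def cW (W : List ℕ) (n : ℕ) : ℕ := W.getD (n % W.length) 0

def lowN (W : List ℕ) (n : ℕ) : Bool := Nat.beq ((st W (n % W.length)).1 % 2) 1

/-- is the value `h` allowed by the code -/
def okh (c : List ℕ) (h : Bool) : Bool :=
  match c with
  | [1] => true
  | [2, _] => h
  | _ => !h

def cC (C : List (List ℕ)) (W : List ℕ) (n : ℕ) : List ℕ := C.getD (n % W.length) []

/-- `0, 1, 2` for the shifts `-1, 0, 1` -/
def shN (ty : Bool) (c : ℕ) (h : Bool) (far : ℕ) : ℕ :=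
  if c = 1 ∧ h = false ∧ far ≠ 0 then (if ty then 2 else 0)
  else if c = 2 ∧ h = false ∧ far ≠ 0 then (if ty then 0 else 2)
  else 1

def Fv (cmm cm c cp cpp : ℕ) (lowm low : Bool) (hm h hp tm t lm l : Bool) : ℕ :=
  if c = 0 ∨ h = false then 0
  else if tm ≠ decide (c = 1) ∨ t ≠ decide (c = 1) then 0
  else if (lowm = true ∧ cm = 0) ∨ (low = true ∧ cp = 0) then 3
  else if cm = 0 ∨ cp = 0 then 0
  else if lm = lowm ∧ l = low then 3
  else if lm = false ∧ l = false then
    shN (decide (c = 1)) cm hm cmm + shN (decide (c = 1)) cp hp cpp - 1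
  else 0

def b2 (b : Bool) : ℕ := if b then 1 else 0

def VT (T : List ℕ) (j : ℕ) (hm h t l : Bool) : ℕ :=
  (T.getD j 0 >>> (6 * (b2 hm + 2 * b2 h + 4 * b2 t + 8 * b2 l))) % 64

/-- the certificate check at the vertex `j` -/
def chkV (W : List ℕ) (C : List (List ℕ)) (T : List ℕ) (j : ℕ) : Bool :=
  allB fun hm => allB fun h => allB fun hp =>
    !(okh (cC C W (j + W.length - 1)) hm) || (!(okh (cC C W j) h) || (!(okh (cC C W (j + 1)) hp) ||
    (allB fun tm => allB fun t => allB fun lm => allB fun l =>
      (!h && (xor tm t || xor lm l)) ||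
      Nat.ble (Fv (cW W (j + W.length - 2)) (cW W (j + W.length - 1)) (cW W j) (cW W (j + 1))
          (cW W (j + 2)) (lowN W (j + W.length - 1)) (lowN W j) hm h hp tm t lm l
          + VT T ((j + 1) % W.length) h hp t l)
        (VT T j hm h tm lm + (if j + 1 = W.length then 3 * (W.length - 9) else 0)))))

def chkCert (q : List ℕ × List (List ℕ) × List ℕ) : Bool :=
  Nat.ble 11 q.1.length && (allN q.1.length (fun j => geoV q.1 j (q.2.1.getD j [])) &&
    allN q.1.length (fun j => chkV q.1 q.2.1 q.2.2 j))

def chkTri (q : List ℕ × List ℕ) : Bool :=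
  match q.2 with
  | [j, k, i1, i2] => Nat.ble (j + 1) q.1.length && (Nat.ble (i1 + 1) q.1.length &&
      (Nat.ble (i2 + 1) q.1.length && (ptEq (padd (st q.1 j).2 (eN k)) (st q.1 i1).2 &&
        ptEq (padd (st q.1 j).2 (eN (k + 1))) (st q.1 i2).2)))
  | _ => false

def certs : List (List ℕ × List (List ℕ) × List ℕ) := [
  ([0, 0, 0, 1, 1, 1, 2, 1, 1, 2, 1, 1, 1],
   [[0], [0], [0], [1], [1], [1], [3, 4, 1, 2], [1], [1], [3, 4, 0, 1], [1], [1], [1]],
   [3683446076188818187223820, 56668401172135664418828, 56668401172135664418828, 232170439601395392177029129, 15090157487806843044497756745, 11317388069090143952236220806, 1841723038094412365169030, 116085219801120114720399366, 7545539287017906432797860035, 1841722983206785363476675, 116056882141769120801107968, 13400297963520, 0]),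
  ([0, 0, 0, 1, 1, 1, 2, 1, 1, 2, 1, 2, 1, 1, 1, 1, 2],
   [[0], [0], [0], [1], [1], [1], [3, 4, 1, 2], [1], [1], [3, 4, 0, 1], [1], [2, 16], [1], [1], [1], [1], [2, 11]],
   [6346860931279194414908736, 99169702051237412732949, 99169702051237412732949, 406298269303075255019982866, 26408466418416034129289749650, 22635696999699335037028213711, 4604307595236026005586895, 290213049502799977563353103, 18863848217627097517589852940, 4604307540348399003894540, 290198878943742017509834764, 15087395128069399294868766720, 14857094524344902277283447168, 7545539287017919835276861635, 7543697339214997387557482496, 13400297963520, 0]),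
  ([0, 0, 0, 1, 1, 1, 2, 1, 2, 1, 1, 1, 2, 1, 1],
   [[0], [0], [0], [1], [1], [1], [3, 4, 1, 2], [1], [1], [1], [1], [1], [1], [1], [1]],
   [5525169114283227280835730, 85002601758203496628242, 85002601758203496628242, 348255659402515300738998287, 22635696774879637101025752015, 18862927356162938008764216076, 3683446076188821458780940, 232170439602240023282368524, 15090157712626540911780741705, 11318308930554316863540859270, 11316466982751394415821480131, 3772769643536410428561961155, 3771848782017349826988748800, 13400297963520, 0]),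
  ([0, 0, 0, 1, 1, 2, 1, 1, 1, 2, 1, 2, 1, 1, 1],
   [[0], [0], [0], [1], [1], [1], [1], [1], [1], [1], [1], [3, 4, 0, 1], [1], [1], [1]],
   [5525169114283227280835730, 85002601758203496628242, 85002601758203496628242, 348255659402515300722221071, 22635696774879632633169245135, 18863848217627097517589852940, 18862006269824188334910521929, 11318308930609204485089956425, 11317388069090143880245187145, 7545539287072794056528793990, 7545539287017906432797860035, 1841722983206785363476675, 116056882141769120801107968, 13400297963520, 0]),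
  ([0, 0, 0, 1, 2, 2, 2, 2, 1, 2, 1, 2, 2, 1, 2, 2, 2],
   [[0], [0], [0], [2, 8], [1], [1], [1], [1], [2, 3], [1], [3, 1, 2, 1], [1], [1], [3, 1, 1, 0], [1], [1], [1]],
   [6446030633330431827641685, 99169702051237412732949, 99169702051237412732949, 406199099601868442554159104, 22287455728757197157782258816, 18862927356217825557232558990, 15091078798965281511391421196, 15091078574090700489325855305, 15087394903249696894281355264, 11143274406488757051318338112, 1841723038094409093612105, 116085219801119908561981446, 7544618425608634472439767235, 920861573934825005383875, 58028446259031434185420803, 798720, 0]),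
  ([0, 0, 0, 2, 1, 1, 1, 1, 2, 1, 2, 1, 1, 2, 1, 1, 1],
   [[0], [0], [0], [2, 8], [1], [1], [1], [1], [2, 3], [1], [3, 4, 1, 2], [1], [1], [3, 4, 0, 1], [1], [1], [1]],
   [6446030633330431827641685, 99169702051237412732949, 99169702051237412732949, 406199099601868442554159104, 26001275625252413499232486336, 18863848217627110920068854540, 18862927131343235673624724236, 15090157712681428528967762505, 11315546570871742869486997504, 11143274406488757054539563392, 1841723038094412365169030, 116085219801120114720399366, 7545539287017906432797860035, 1841722983206785363476675, 116056882141769120801107968, 13400297963520, 0]),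
  ([0, 0, 0, 2, 2, 1, 2, 2, 2, 1, 2, 1, 2, 2, 2],
   [[0], [0], [0], [1], [1], [1], [1], [1], [1], [1], [1], [3, 1, 1, 0], [1], [1], [1]],
   [5525169114283227280835730, 85002601758203496628242, 85002601758203496628242, 348241492303911116699934736, 18863848442501678539655414735, 18862927356217825557231760140, 15090157937446234306844607244, 11318308930609191084792791625, 11317388069090143883516744070, 7545539287072807456825958790, 7544618425608634472439767235, 920861573934825005383875, 58028446259031434185420803, 798720, 0]),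
  ([0, 0, 0, 2, 2, 2, 1, 2, 1, 2, 2, 2, 1, 2, 2],
   [[0], [0], [0], [1], [1], [1], [3, 1, 2, 1], [1], [1], [1], [1], [1], [1], [1], [1]],
   [5525169114283227280835730, 85002601758203496628242, 85002601758203496628242, 348241492303911116699934737, 18863848442501678539655681040, 18862927356162937936773186511, 3683446076188818187224015, 232170439602239817123950604, 15090157712626540908509184780, 11317388069145031500704563720, 7544618650373440250316620166, 3772769643536397028264796355, 3771848782017349823717191875, 798720, 0]),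
  ([0, 0, 0, 2, 2, 2, 1, 2, 2, 1, 2, 1, 2, 2, 2, 2, 1],
   [[0], [0], [0], [1], [1], [1], [3, 1, 2, 1], [1], [1], [3, 1, 1, 0], [1], [2, 16], [1], [1], [1], [1], [2, 11]],
   [6346860931279194414908736, 99169702051237412732949, 99169702051237412732949, 406284102204471070980919316, 22636618086038075567919678675, 22635696999699334965037184146, 4604307595236022734029970, 290213049502799771404935183, 18862927356217825557231760140, 3683446131076438645801740, 232170443061004330944479244, 15087395128069399294868766720, 11143274627849685935833219648, 7544618425608634472440566085, 3771849006837043222052622531, 798720, 0]),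
  ([0, 0, 0, 2, 2, 2, 1, 2, 2, 1, 2, 2, 2],
   [[0], [0], [0], [1], [1], [1], [3, 1, 2, 1], [1], [1], [3, 1, 1, 0], [1], [1], [1]],
   [3683446076188818187223820, 56668401172135664418828, 56668401172135664418828, 232156272502791208137965579, 11318309155428884483127685770, 11317388069090143880245191241, 1841723038094409093612105, 116085219801119908561981446, 7544618425608634472439767235, 920861573934825005383875, 58028446259031434185420803, 798720, 0]),
  ([0, 0, 1, 1, 0, 1, 1, 2, 1, 1, 1],
   [[0], [0], [1], [1], [0], [1], [1], [3, 4, 0, 1], [1], [1], [1]],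
   [1841723038094409093611910, 28334200586067832209414, 116085219801119908561969158, 7545539287072794056527995270, 1841723038094409093611910, 116085219801119908561969158, 7545539287017906432797860035, 1841722983206785363476675, 116056882141769120801107968, 13400297963520, 0]),
  ([0, 0, 1, 1, 1, 2, 0, 1, 1, 1, 2, 1, 1],
   [[0], [0], [1], [1], [1], [3, 4, 0, 1], [0], [1], [1], [1], [3, 0, 5, 6], [1], [1]],
   [3683446076188818187223820, 56668401172135664418828, 232170439601395392160251913, 15089236626287791375366001030, 7545539287072807456825958790, 1841723038094409093611910, 28334200586067832209414, 116085219800275483615059971, 7544618200734048987969761475, 3771848782017349895708225536, 3271557120, 206158430208, 0]),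
  ([0, 0, 1, 1, 1, 2, 1, 1, 0, 1, 1],
   [[0], [0], [1], [1], [1], [3, 4, 0, 1], [1], [1], [0], [1], [1]],
   [1841723038094409093611910, 28334200586067832209414, 116085219800275483615059971, 7544618200734048987969761475, 3771848782017349895708225536, 3271557120, 206158430208, 0, 0, 0, 0]),
  ([0, 0, 1, 1, 1, 2, 1, 1, 0, 2, 1, 1, 1, 1, 2],
   [[0], [0], [1], [1], [1], [3, 4, 0, 1], [1], [1], [0], [2, 14], [1], [1], [1], [1], [2, 9]],
   [5440166512525023784207488, 85002601758203496628242, 348255659402515300738998287, 22635696774879637101025752015, 18862927356162938008764216076, 3683446076188821458780940, 232170439602240023282368524, 15091078574145588113055990540, 3683446076188818187223820, 232113771201067681459519488, 14857094524344902277283447168, 7545539287017919835276861635, 7543697339214997387557482496, 13400297963520, 0]),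
  ([0, 0, 1, 1, 2, 1, 1, 1, 0, 2, 1, 1, 1],
   [[0], [0], [1], [1], [3, 2, 8, 9], [1], [1], [1], [0], [3, 4, 0, 1], [1], [1], [1]],
   [3683446076188818187223820, 56668401172135664418828, 232170439602239817123938316, 15091078574090700489325855305, 3683446021301194457088585, 232142101942889029363077126, 7545539287072807456825958790, 7545539287017906433888379075, 1841722983206786453995715, 28334199741642868523011, 116056882141769189520584704, 13400297963520, 0]),
  ([0, 0, 1, 2, 2, 2, 2, 1, 0, 2, 2, 1, 2, 2, 2],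
   [[0], [0], [2, 7], [1], [1], [1], [1], [2, 2], [0], [1], [1], [3, 1, 1, 0], [1], [1], [1]],
   [5525169114283227280835730, 85002601758203496628242, 348170656801601522189279232, 18572728695121360083799245760, 15090157712681428528968561355, 11317388293909837278580617801, 7545539287072794056528793990, 7543697564034699647434383360, 1813388837508341261402496, 116085219801119908561969158, 7544618425608634472439767235, 920861573934825005383875, 58028446259031434185420803, 798720, 0]),
  ([0, 0, 2, 1, 1, 1, 1, 2, 0, 1, 1, 2, 1, 1, 1],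
   [[0], [0], [2, 7], [1], [1], [1], [1], [2, 2], [0], [1], [1], [3, 4, 0, 1], [1], [1], [1]],
   [5525169114283227280835730, 85002601758203496628242, 348170656801601522189279232, 22286548591616576425249473280, 15091078574090713891804856905, 15089236626287791444085477766, 7545539287072807456825958790, 7543697564034699647434383360, 1813388837508341261402496, 116085219801119908561969158, 7545539287017906432797860035, 1841722983206785363476675, 116056882141769120801107968, 13400297963520, 0]),
  ([0, 0, 2, 2, 0, 2, 2, 1, 2, 2, 2],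
   [[0], [0], [1], [1], [0], [1], [1], [3, 1, 1, 0], [1], [1], [1]],
   [1841723038094409093611910, 28334200586067832209414, 116085219801119908561969158, 7545539287072794056527995270, 1841723038094409093611910, 116085219801119908561969158, 7544618425608634472439767235, 920861573934825005383875, 58028446259031434185420803, 798720, 0]),
  ([0, 0, 2, 2, 1, 2, 2, 2, 0, 1, 2, 2, 2],
   [[0], [0], [1], [1], [3, 3, 9, 8], [1], [1], [1], [0], [3, 1, 1, 0], [1], [1], [1]],
   [3683446076188818187223820, 56668401172135664418828, 232170439602239817123938316, 15090157712681428528967762505, 2762584612029234098995785, 174113666060151342747389961, 7545539287072794056528793990, 7544618425608634472439767300, 920861573934825005383940, 14167101137458846236676, 58028446259031434185424899, 798720, 0]),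
  ([0, 0, 2, 2, 2, 1, 0, 2, 2, 2, 1, 2, 2],
   [[0], [0], [1], [1], [1], [3, 1, 1, 0], [0], [1], [1], [1], [3, 5, 6, 5], [1], [1]],
   [3683446076188818187223820, 56668401172135664418828, 232156272502791208137965578, 11317388293909837278580613705, 7545539287072794056528793990, 1841723038094409093611910, 28334200586067832209414, 116071052701671299575996421, 3772769868356090426599690500, 3771848782017349823717195971, 195, 12288, 0]),
  ([0, 0, 2, 2, 2, 1, 2, 2, 0, 1, 2, 2, 2, 2, 1],
   [[0], [0], [1], [1], [1], [3, 1, 1, 0], [1], [1], [0], [2, 14], [1], [1], [1], [1], [2, 9]],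
   [5440166512525023784207488, 85002601758203496628242, 348241492303911116699934737, 18863848442501678539655681040, 18862927356162937936773186511, 3683446076188818187224015, 232170439602239817123950604, 15091078574145588113055990540, 3683446076188818187223820, 232113771201067681459519488, 11143274627849685935833219648, 7544618425608634472440566085, 3771849006837043222052622531, 798720, 0]),
  ([0, 0, 2, 2, 2, 1, 2, 2, 0, 2, 2],
   [[0], [0], [1], [1], [1], [3, 1, 1, 0], [1], [1], [0], [1], [1]],
   [1841723038094409093611910, 28334200586067832209414, 116071052701671299575996421, 3772769868356090426599690500, 3771848782017349823717195971, 195, 12288, 0, 0, 0, 0])]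

def triCerts : List (List ℕ × List ℕ) := [
  ([0, 0, 0, 1, 1, 1, 1, 2, 2, 1, 1, 1, 1], [0, 0, 1, 8]),
  ([0, 0, 0, 1, 1, 1, 1, 2, 2, 1, 1, 2, 1, 1, 1, 1, 2], [0, 0, 1, 8]),
  ([0, 0, 0, 1, 1, 1, 1, 2, 2, 2, 1, 1, 1, 1, 2, 1, 1], [0, 0, 1, 8]),
  ([0, 0, 0, 1, 1, 2, 1, 1, 1, 1, 2, 2, 2, 1, 1, 1, 1], [0, 0, 1, 12]),
  ([0, 0, 0, 1, 2, 2, 2, 2, 1, 2, 2, 1, 1, 2, 2, 2, 2], [0, 5, 12, 1]),
  ([0, 0, 0, 2, 1, 1, 1, 1, 2, 1, 1, 2, 2, 1, 1, 1, 1], [0, 0, 1, 12]),
  ([0, 0, 0, 2, 2, 1, 2, 2, 2, 2, 1, 1, 1, 2, 2, 2, 2], [0, 5, 12, 1]),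
  ([0, 0, 0, 2, 2, 2, 2, 1, 1, 1, 2, 2, 2, 2, 1, 2, 2], [0, 5, 8, 1]),
  ([0, 0, 0, 2, 2, 2, 2, 1, 1, 2, 2, 1, 2, 2, 2, 2, 1], [0, 5, 8, 1]),
  ([0, 0, 0, 2, 2, 2, 2, 1, 1, 2, 2, 2, 2], [0, 5, 8, 1])]

theorem certs_ok : certs.all chkCert = true := by decide +kernel

theorem triCerts_ok : triCerts.all chkTri = true := by decide +kernel

theorem words_covered : words.all (fun W =>
    (certs.any fun q => decide (q.1 = W)) || (triCerts.any fun q => decide (q.1 = W))) = true := by
  decide +kernel


/-! ### soundness of the checks -/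

theorem allB_iff {f : Bool → Bool} : allB f = true ↔ ∀ b, f b = true := by
  unfold allB
  constructor
  · intro h b
    cases b <;> simp_all
  · intro h
    simp [h]

theorem allN_iff {n : ℕ} {f : ℕ → Bool} : allN n f = true ↔ ∀ j < n, f j = true := by
  induction n with
  | zero => simp [allN]
  | succ n ih =>
    unfold allN
    rw [Bool.and_eq_true, ih]
    constructor
    · rintro ⟨h1, h2⟩ j hj
      rcases Nat.lt_succ_iff_lt_or_eq.1 hj with h | h
      · exact h2 j h
      · exact h ▸ h1
    · intro h
      exact ⟨h n (Nat.lt_succ_self n), fun j hj => h j (Nat.lt_succ_of_lt hj)⟩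

theorem ptEq_iff {a b : ℤ × ℤ} : ptEq a b = true ↔ a = b := by
  unfold ptEq
  rw [Bool.and_eq_true, decide_eq_true_iff, decide_eq_true_iff]
  exact Prod.ext_iff.symm

def rot (r : ZMod 6) (u : ℤ × ℤ) : Pt :=
  (u.1 * (e r).1 + u.2 * (e (r + 1)).1, u.1 * (e r).2 + u.2 * (e (r + 1)).2)

theorem rot_padd (r : ZMod 6) (u v : ℤ × ℤ) : rot r (padd u v) = rot r u + rot r v := by
  unfold rot padd
  ext
  · simp only [Prod.fst_add]; ring
  · simp only [Prod.snd_add]; ring

theorem rot_zero (r : ZMod 6) : rot r (0, 0) = 0 := by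
  unfold rot
  ext <;> simp

theorem eN_mod (n : ℕ) : eN (n % 6) = eN n := by
  unfold eN
  rw [Nat.mod_mod]

theorem e_nat (r : ZMod 6) (n : ℕ) : e (r + (n : ZMod 6)) = rot r (eN n) := by
  rw [← ZMod.natCast_mod n 6, ← eN_mod n]
  have hm : n % 6 < 6 := Nat.mod_lt _ (by norm_num)
  generalize n % 6 = m at hm
  interval_cases m <;> (revert r; decide)

theorem par_nat (r : ZMod 6) (lp : Bool) (h : par r ≠ lp) (n : ℕ) :
    par (r + (n : ZMod 6)) = lp ↔ n % 2 = 1 := by
  rw [← ZMod.natCast_mod n 6]
  have h2 : n % 2 = (n % 6) % 2 := by omega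
  rw [h2]
  have hm : n % 6 < 6 := Nat.mod_lt _ (by norm_num)
  generalize n % 6 = m at hm
  interval_cases m <;> (revert lp; revert r; decide)

section poly

variable {V : Set Pt} {L : ℕ} {p : ℤ → Pt} {d : ℤ → ZMod 6}

theorem add_one_ne (x : ZMod 6) : x + 1 ≠ x := by revert x; decide
theorem sub_one_ne (x : ZMod 6) : x - 1 ≠ x := by revert x; decide
theorem sub_one_ne_add_one (x : ZMod 6) : x - 1 ≠ x + 1 := by revert x; decide

theorem turn' (hP : IsPoly V L p d) (k : ℤ) :
    d k = d (k - 1) ∨ d k = d (k - 1) + 1 ∨ d k = d (k - 1) - 1 := by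
  have := hP.turn (k - 1)
  rwa [sub_add_cancel] at this

theorem tc_eq_zero (k : ℤ) : tc d k = 0 ↔ d k = d (k - 1) := by
  unfold tc
  split_ifs <;> simp_all

theorem tc_eq_one (k : ℤ) : tc d k = 1 ↔ d k = d (k - 1) + 1 := by
  unfold tc
  split_ifs with h1 h2
  · rw [h1]
    simp only [false_iff]
    exact fun h => add_one_ne _ h.symm
  · simp [h2]
  · simp [h2]

theorem tc_eq_two (hP : IsPoly V L p d) (k : ℤ) : tc d k = 2 ↔ d k = d (k - 1) - 1 := by
  unfold tc
  split_ifs with h1 h2
  · rw [h1]
    constructor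
    · intro h; exact absurd h (by norm_num)
    · intro h; exact absurd h.symm (sub_one_ne _)
  · rw [h2]
    constructor
    · intro h; exact absurd h (by norm_num)
    · intro h; exact absurd h.symm (sub_one_ne_add_one _)
  · simp only [true_iff]
    rcases turn' hP k with h | h | h
    · exact absurd h h1
    · exact absurd h h2
    · exact h

theorem tau_tc (hP : IsPoly V L p d) (k : ℤ) :
    d k = d (k - 1) + (tauN (tc d k) : ZMod 6) := by
  rcases turn' hP k with h | h | h
  · rw [(tc_eq_zero k).2 h]; simpa [tauN] using h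
  · rw [(tc_eq_one k).2 h]; simpa [tauN] using h
  · rw [(tc_eq_two hP k).2 h]
    rw [h]
    have : ((5 : ℕ) : ZMod 6) = -1 := by decide
    simp only [tauN]
    rw [this]
    ring

theorem per_nat {α : Type*} {f : ℤ → α} {L : ℕ} (hf : ∀ k, f (k + L) = f k) (a : ℤ) (n m : ℕ) :
    f (a + ((m + L * n : ℕ) : ℤ)) = f (a + (m : ℤ)) := by
  induction n with
  | zero => simp
  | succ n ih =>
    rw [← ih, ← hf (a + ((m + L * n : ℕ) : ℤ))]
    congr 1
    push_cast
    ring

theorem per_mod {α : Type*} {f : ℤ → α} {L : ℕ} (hf : ∀ k, f (k + L) = f k) (a : ℤ) (n : ℕ) :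
    f (a + (n : ℤ)) = f (a + ((n % L : ℕ) : ℤ)) := by
  conv_lhs => rw [← Nat.mod_add_div n L]
  exact per_nat hf a (n / L) (n % L)

theorem tc_per (hP : IsPoly V L p d) (k : ℤ) : tc d (k + L) = tc d k := by
  have h1 : d (k + L) = d k := hP.perd k
  have h2 : d (k + L - 1) = d (k - 1) := by
    have := hP.perd (k - 1)
    rwa [show k - 1 + (L : ℤ) = k + L - 1 by ring] at this
  unfold tc
  rw [h1, h2]

/-- third neighbour of the corner `p k` -/
def third (p : ℤ → Pt) (d : ℤ → ZMod 6) (k : ℤ) : Pt :=
  p k + e (if tc d k = 1 then d (k - 1) - 1 else d (k - 1) + 1)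

open Classical in
noncomputable def H (V : Set Pt) (p : ℤ → Pt) (d : ℤ → ZMod 6) (k : ℤ) : Bool :=
  decide (tc d k ≠ 0 ∧ third p d k ∈ V)

theorem H_eq_true (k : ℤ) : H V p d k = true ↔ tc d k ≠ 0 ∧ third p d k ∈ V := by
  simp only [H, decide_eq_true_eq]

theorem H_eq_false (k : ℤ) : H V p d k = false ↔ ¬ (tc d k ≠ 0 ∧ third p d k ∈ V) := by
  simp only [H, decide_eq_false_iff_not]

theorem H_per (hP : IsPoly V L p d) (k : ℤ) : H V p d (k + L) = H V p d k := by
  have h2 : d (k + L - 1) = d (k - 1) := by
    have := hP.perd (k - 1)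
    rwa [show k - 1 + (L : ℤ) = k + L - 1 by ring] at this
  unfold H third
  rw [tc_per hP, hP.per, h2]

/-- the local payment bound -/
theorem pay_le (hP : IsPoly V L p d) {lp : Bool} {typ lab : ℤ → Bool} {pay : ℤ → ℤ} (k : ℤ)
    (h : PayOK V p d lp typ lab pay k) :
    pay (k + 1) ≤ ((Fv (tc d (k - 1)) (tc d k) (tc d (k + 1)) (tc d (k + 2)) (tc d (k + 3))
      (decide (par (d k) = lp)) (decide (par (d (k + 1)) = lp)) (H V p d k) (H V p d (k + 1))
      (H V p d (k + 2)) (typ k) (typ (k + 1)) (lab k) (lab (k + 1)) : ℕ) : ℤ) := by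
  rcases h with h | ⟨ty, hturn, hth, ht1, ht2, hc⟩
  · exact h.trans (by positivity)
  have ek1 : k + 1 - 1 = k := by ring
  have ek2 : k + 2 - 1 = k + 1 := by ring
  have ek3 : k + 3 - 1 = k + 2 := by ring
  have ek4 : k - 1 - 1 = k - 2 := by ring
  have hc1 : decide (tc d (k + 1) = 1) = ty := by
    cases ty
    · have : d (k + 1) = d (k + 1 - 1) - 1 := by rw [ek1]; simpa using hturn
      rw [(tc_eq_two hP _).2 this]; rfl
    · have : d (k + 1) = d (k + 1 - 1) + 1 := by rw [ek1]; simpa using hturn
      rw [(tc_eq_one _).2 this]; rfl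
  have hc0 : tc d (k + 1) ≠ 0 := by
    intro h0
    have h1 := (tc_eq_zero (d := d) (k + 1)).1 h0
    rw [ek1] at h1
    cases ty
    · rw [h1] at hturn; exact sub_one_ne (d k) (by simpa using hturn.symm)
    · rw [h1] at hturn; exact add_one_ne (d k) (by simpa using hturn.symm)
  have hH : H V p d (k + 1) = true := by
    rw [H_eq_true]
    refine ⟨hc0, ?_⟩
    unfold third
    rw [ek1]
    cases ty
    · have : ¬ tc d (k + 1) = 1 := by simpa using hc1
      rw [if_neg this]; simpa using hth
    · have : tc d (k + 1) = 1 := by simpa using hc1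
      rw [if_pos this]; simpa using hth
  have h1 : ¬ (tc d (k + 1) = 0 ∨ H V p d (k + 1) = false) := by
    rw [hH]; simp [hc0]
  have h2 : ¬ (typ k ≠ decide (tc d (k + 1) = 1) ∨ typ (k + 1) ≠ decide (tc d (k + 1) = 1)) := by
    rw [hc1, ht1, ht2]; simp
  unfold Fv
  rw [if_neg h1, if_neg h2]
  have z1 : tc d k = 0 ↔ d (k - 1) = d k := by rw [tc_eq_zero]; exact eq_comm
  have z2 : tc d (k + 2) = 0 ↔ d (k + 2) = d (k + 1) := by rw [tc_eq_zero, ek2]
  rcases hc with ⟨hp, hL⟩ | ⟨hp, hs1, hs2, hl1, hl2⟩ | ⟨hp, hs1, hs2, hl1, hl2⟩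
  · have : (decide (par (d k) = lp) = true ∧ tc d k = 0) ∨
        (decide (par (d (k + 1)) = lp) = true ∧ tc d (k + 2) = 0) := by
      rw [z1, z2]; simpa using hL
    rw [if_pos this]
    exact_mod_cast hp
  · split_ifs with g1 g2 g3 g4
    · exact_mod_cast hp
    · rw [z1, z2] at g2
      rcases g2 with g | g
      · exact absurd g hs1
      · exact absurd g hs2
    · exact_mod_cast hp
    · exfalso
      apply g3
      constructor
      · rw [Bool.eq_iff_iff, hl1]; simp
      · rw [Bool.eq_iff_iff, hl2]; simp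
    · exfalso
      apply g3
      constructor
      · rw [Bool.eq_iff_iff, hl1]; simp
      · rw [Bool.eq_iff_iff, hl2]; simp
  · have z0 : tc d (k - 1) = 0 ↔ d (k - 2) = d (k - 1) := by
      rw [tc_eq_zero, ek4]; exact eq_comm
    have z3 : tc d (k + 3) = 0 ↔ d (k + 3) = d (k + 2) := by rw [tc_eq_zero, ek3]
    have hb : pay (k + 1) ≤ 3 := by
      refine hp.trans ?_
      unfold shiftIn shiftOut
      split_ifs <;> norm_num
    have hin : shiftIn V p d ty k = ((shN ty (tc d k) (H V p d k) (tc d (k - 1)) : ℕ) : ℤ) - 1 := by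
      unfold shiftIn shN
      have e1 : (d k = d (k - 1) + 1 ∧ p k + e (d (k - 1) - 1) ∉ V ∧ d (k - 2) ≠ d (k - 1)) ↔
          (tc d k = 1 ∧ H V p d k = false ∧ tc d (k - 1) ≠ 0) := by
        rw [Ne, Ne, z0, tc_eq_one]
        constructor
        · rintro ⟨a1, a2, a3⟩
          refine ⟨a1, ?_, a3⟩
          rw [H_eq_false]
          unfold third
          rw [(tc_eq_one k).2 a1, if_pos rfl]
          exact fun h => a2 h.2
        · rintro ⟨a1, a2, a3⟩
          refine ⟨a1, ?_, a3⟩
          rw [H_eq_false] at a2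
          unfold third at a2
          rw [(tc_eq_one k).2 a1, if_pos rfl] at a2
          exact fun h => a2 ⟨by norm_num, h⟩
      have e2 : (d k = d (k - 1) - 1 ∧ p k + e (d (k - 1) + 1) ∉ V ∧ d (k - 2) ≠ d (k - 1)) ↔
          (tc d k = 2 ∧ H V p d k = false ∧ tc d (k - 1) ≠ 0) := by
        rw [Ne, Ne, z0, tc_eq_two hP]
        constructor
        · rintro ⟨a1, a2, a3⟩
          refine ⟨a1, ?_, a3⟩
          rw [H_eq_false]
          unfold third
          rw [(tc_eq_two hP k).2 a1, if_neg (by norm_num)]
          exact fun h => a2 h.2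
        · rintro ⟨a1, a2, a3⟩
          refine ⟨a1, ?_, a3⟩
          rw [H_eq_false] at a2
          unfold third at a2
          rw [(tc_eq_two hP k).2 a1, if_neg (by norm_num)] at a2
          exact fun h => a2 ⟨by norm_num, h⟩
      simp only [e1, e2]
      split_ifs <;> norm_num
    have hout : shiftOut V p d ty k =
        ((shN ty (tc d (k + 2)) (H V p d (k + 2)) (tc d (k + 3)) : ℕ) : ℤ) - 1 := by
      unfold shiftOut shN
      have e1 : (d (k + 2) = d (k + 1) + 1 ∧ p (k + 2) + e (d (k + 1) - 1) ∉ V ∧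
          d (k + 3) ≠ d (k + 2)) ↔
          (tc d (k + 2) = 1 ∧ H V p d (k + 2) = false ∧ tc d (k + 3) ≠ 0) := by
        rw [Ne, Ne, z3, tc_eq_one, ek2]
        constructor
        · rintro ⟨a1, a2, a3⟩
          refine ⟨a1, ?_, a3⟩
          rw [H_eq_false]
          unfold third
          rw [(tc_eq_one (k + 2)).2 (by rw [ek2]; exact a1), if_pos rfl,
            ek2]
          exact fun h => a2 h.2
        · rintro ⟨a1, a2, a3⟩
          refine ⟨a1, ?_, a3⟩
          rw [H_eq_false] at a2
          unfold third at a2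
          rw [(tc_eq_one (k + 2)).2 (by rw [ek2]; exact a1), if_pos rfl,
            ek2] at a2
          exact fun h => a2 ⟨by norm_num, h⟩
      have e2 : (d (k + 2) = d (k + 1) - 1 ∧ p (k + 2) + e (d (k + 1) + 1) ∉ V ∧
          d (k + 3) ≠ d (k + 2)) ↔
          (tc d (k + 2) = 2 ∧ H V p d (k + 2) = false ∧ tc d (k + 3) ≠ 0) := by
        rw [Ne, Ne, z3, tc_eq_two hP, ek2]
        constructor
        · rintro ⟨a1, a2, a3⟩
          refine ⟨a1, ?_, a3⟩
          rw [H_eq_false]
          unfold third
          rw [(tc_eq_two hP (k + 2)).2 (by rw [ek2]; exact a1),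
            if_neg (by norm_num), ek2]
          exact fun h => a2 h.2
        · rintro ⟨a1, a2, a3⟩
          refine ⟨a1, ?_, a3⟩
          rw [H_eq_false] at a2
          unfold third at a2
          rw [(tc_eq_two hP (k + 2)).2 (by rw [ek2]; exact a1),
            if_neg (by norm_num), ek2] at a2
          exact fun h => a2 ⟨by norm_num, h⟩
      simp only [e1, e2]
      split_ifs <;> norm_num
    split_ifs with g1 g2 g3 g4
    · exact_mod_cast hb
    · rw [z1, z2] at g2
      rcases g2 with g | g
      · exact absurd g hs1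
      · exact absurd g hs2
    · exact_mod_cast hb
    · rw [hc1]
      rw [hin, hout] at hp
      omega
    · exact absurd ⟨hl1, hl2⟩ g4

theorem tc_nat (hP : IsPoly V L p d) {a : ℤ} {W : List ℕ} (hL : W.length = L)
    (hW : ∀ j : ℕ, j < L → W.getD j 0 = tc d (a + j)) (hL0 : 0 < L) (n : ℕ) :
    tc d (a + n) = cW W n := by
  rw [per_mod (tc_per hP) a n]
  unfold cW
  rw [hL, hW _ (Nat.mod_lt _ hL0)]

theorem walk (hP : IsPoly V L p d) {a : ℤ} {W : List ℕ}
    (hW : ∀ j : ℕ, j < L → W.getD j 0 = tc d (a + j)) (j : ℕ) (hj : j < L) :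
    d (a + j) = d a + ((st W j).1 : ZMod 6) ∧ p (a + j) = p a + rot (d a) (st W j).2 := by
  induction j with
  | zero => simp [st, rot_zero]
  | succ j ih =>
    obtain ⟨h1, h2⟩ := ih (by omega)
    have e0 : a + ((j + 1 : ℕ) : ℤ) = a + j + 1 := by push_cast; ring
    have e1 : a + ((j + 1 : ℕ) : ℤ) - 1 = a + j := by push_cast; ring
    constructor
    · have := tau_tc hP (a + ((j + 1 : ℕ) : ℤ))
      rw [e1, h1, ← hW (j + 1) hj] at this
      rw [this]
      have hs : (st W (j + 1)).1 = ((st W j).1 + tauN (W.getD (j + 1) 0)) % 6 := rfl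
      rw [hs, ZMod.natCast_mod, Nat.cast_add]
      ring
    · rw [e0, hP.step, h1, h2, e_nat]
      have : (st W (j + 1)).2 = padd (st W j).2 (eN (st W j).1) := rfl
      rw [this, rot_padd, add_assoc]

theorem low_nat (hP : IsPoly V L p d) {a : ℤ} {lp : Bool} {W : List ℕ} (hL : W.length = L)
    (hW : ∀ j : ℕ, j < L → W.getD j 0 = tc d (a + j)) (hL0 : 0 < L) (hlp : par (d a) ≠ lp)
    (n : ℕ) : decide (par (d (a + n)) = lp) = lowN W n := by
  have h0 : d (a + n) = d (a + ((n % L : ℕ) : ℤ)) := per_mod (f := d) hP.perd a n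
  rw [h0, (walk hP hW _ (Nat.mod_lt _ hL0)).1]
  unfold lowN
  rw [hL, Bool.eq_iff_iff, decide_eq_true_iff, par_nat _ _ hlp]
  constructor
  · intro h
    rw [h]; rfl
  · intro h
    exact Nat.eq_of_beq_eq_true h

theorem third_nat (hP : IsPoly V L p d) {a : ℤ} {W : List ℕ}
    (hW : ∀ j : ℕ, j < L → W.getD j 0 = tc d (a + j)) (j : ℕ) (hj : j < L) (hj1 : 1 ≤ j) :
    third p d (a + j) = p a + rot (d a) (thirdN W j) := by
  unfold third thirdN
  obtain ⟨-, h2⟩ := walk hP hW j hj
  obtain ⟨h3, -⟩ := walk hP hW (j - 1) (by omega)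
  have e1 : a + (j : ℤ) - 1 = a + ((j - 1 : ℕ) : ℤ) := by
    rw [Nat.cast_sub hj1]; push_cast; ring
  rw [h2, e1, h3, rot_padd, ← e_nat, add_assoc, ← hW j hj]
  congr 2
  split_ifs with h
  · have : ((5 : ℕ) : ZMod 6) = -1 := by decide
    rw [Nat.cast_add, this]; congr 1; ring
  · rw [Nat.cast_add]; congr 1; push_cast; ring

theorem okh_nat (hV : TriFree V) (hP : IsPoly V L p d) {a : ℤ} {W : List ℕ} {C : List (List ℕ)}
    (hL : W.length = L)
    (hW : ∀ j : ℕ, j < L → W.getD j 0 = tc d (a + j)) (hL0 : 0 < L)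
    (hC : ∀ j < W.length, geoV W j (C.getD j []) = true) (n : ℕ) :
    okh (cC C W n) (H V p d (a + n)) = true := by
  have h0 : H V p d (a + n) = H V p d (a + ((n % L : ℕ) : ℤ)) :=
    per_mod (f := H V p d) (H_per hP) a n
  rw [h0]
  unfold cC
  rw [hL]
  have hj : n % L < L := Nat.mod_lt _ hL0
  generalize n % L = j at hj
  have hg := hC j (by omega)
  generalize C.getD j [] = c at hg
  unfold geoV at hg
  split at hg
  · have h1 : W.getD j 0 = 0 := Nat.eq_of_beq_eq_true hg
    have : H V p d (a + j) = false := by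
      rw [H_eq_false, ← hW j hj, h1]; simp
    rw [this]; rfl
  · rfl
  · rename_i i
    rw [Bool.and_eq_true, Bool.and_eq_true, Bool.and_eq_true, ptEq_iff] at hg
    obtain ⟨g1, g2, g3, g4⟩ := hg
    have g1' := Nat.le_of_ble_eq_true g1
    have g2' := Nat.le_of_ble_eq_true g2
    have g3' := Nat.le_of_ble_eq_true g3
    have : H V p d (a + j) = true := by
      rw [H_eq_true, ← hW j hj, third_nat hP hW j hj g1', g4, ← (walk hP hW i (by omega)).2]
      exact ⟨by omega, hP.mem _⟩
    rw [this]; rfl
  · rename_i k i1 i2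
    rw [Bool.and_eq_true, Bool.and_eq_true, Bool.and_eq_true, Bool.and_eq_true, ptEq_iff,
      ptEq_iff] at hg
    obtain ⟨g1, g2, g3, g4, g5⟩ := hg
    have g1' := Nat.le_of_ble_eq_true g1
    have g2' := Nat.le_of_ble_eq_true g2
    have g3' := Nat.le_of_ble_eq_true g3
    have : H V p d (a + j) = false := by
      rw [H_eq_false, third_nat hP hW j hj g1']
      rintro ⟨-, hin⟩
      have m1 : p a + rot (d a) (thirdN W j) + e (d a + (k : ZMod 6)) ∈ V := by
        rw [e_nat, add_assoc, ← rot_padd, g4, ← (walk hP hW i1 (by omega)).2]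
        exact hP.mem _
      have m2 : p a + rot (d a) (thirdN W j) + e (d a + (k : ZMod 6) + 1) ∈ V := by
        have : d a + (k : ZMod 6) + 1 = d a + ((k + 1 : ℕ) : ZMod 6) := by push_cast; ring
        rw [this, e_nat, add_assoc, ← rot_padd, g5, ← (walk hP hW i2 (by omega)).2]
        exact hP.mem _
      exact hV _ hin _ m1 m2
    rw [this]; rfl
  · exact absurd hg (by simp)

/-- words whose walk contains a triangle -/
theorem no_tri (hV : TriFree V) (hP : IsPoly V L p d) {a : ℤ} {W : List ℕ} {c : List ℕ}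
    (hL : W.length = L) (hW : ∀ j : ℕ, j < L → W.getD j 0 = tc d (a + j))
    (hc : chkTri (W, c) = true) : False := by
  unfold chkTri at hc
  split at hc
  · rename_i j k i1 i2 _
    rw [Bool.and_eq_true, Bool.and_eq_true, Bool.and_eq_true, Bool.and_eq_true, ptEq_iff,
      ptEq_iff] at hc
    obtain ⟨g1, g2, g3, g4, g5⟩ := hc
    have g1' := Nat.le_of_ble_eq_true g1
    have g2' := Nat.le_of_ble_eq_true g2
    have g3' := Nat.le_of_ble_eq_true g3
    simp only at g1' g2' g3' g4 g5
    have m0 : p (a + j) ∈ V := hP.mem _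
    have m1 : p (a + j) + e (d a + (k : ZMod 6)) ∈ V := by
      rw [(walk hP hW j (by omega)).2, e_nat, add_assoc, ← rot_padd, g4,
        ← (walk hP hW i1 (by omega)).2]
      exact hP.mem _
    have m2 : p (a + j) + e (d a + (k : ZMod 6) + 1) ∈ V := by
      have : d a + (k : ZMod 6) + 1 = d a + ((k + 1 : ℕ) : ZMod 6) := by push_cast; ring
      rw [(walk hP hW j (by omega)).2, this, e_nat, add_assoc, ← rot_padd, g5,
        ← (walk hP hW i2 (by omega)).2]
      exact hP.mem _
    exact hV _ m0 _ m1 m2
  · exact absurd hc (by simp)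

theorem sum_per {f : ℤ → ℤ} {L : ℕ} (hf : ∀ k, f (k + L) = f k) (b : ℤ) :
    ∑ j ∈ range L, f (b + j) = ∑ j ∈ range L, f j := by
  have step : ∀ b : ℤ, ∑ j ∈ range L, f (b + 1 + j) = ∑ j ∈ range L, f (b + j) := by
    intro b
    have h1 := Finset.sum_range_succ (fun j : ℕ => f (b + j)) L
    have h2 := Finset.sum_range_succ' (fun j : ℕ => f (b + j)) L
    rw [h1] at h2
    simp only [Nat.cast_zero, add_zero] at h2
    rw [hf b] at h2
    have h3 : ∑ j ∈ range L, f (b + ((j + 1 : ℕ) : ℤ)) = ∑ j ∈ range L, f (b + 1 + j) := by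
      apply Finset.sum_congr rfl
      intro j _
      congr 1
      push_cast
      ring
    rw [h3] at h2
    exact (add_right_cancel h2).symm
  induction b using Int.induction_on with
  | zero => simp
  | succ i ih => rw [step, ih]
  | pred i ih =>
    rw [← ih, ← step]
    simp

theorem main_word (hV : TriFree V) (hP : IsPoly V L p d) {lp : Bool} {typ lab : ℤ → Bool}
    {pay : ℤ → ℤ} (htyp : ∀ k, typ (k + L) = typ k) (hlab : ∀ k, lab (k + L) = lab k)
    (hpay : ∀ k, pay (k + L) = pay k)
    (hconst : ∀ k, (d (k + 1) = d k ∨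
        (d (k + 1) = d k + 1 ∧ p (k + 1) + e (d k - 1) ∉ V) ∨
        (d (k + 1) = d k - 1 ∧ p (k + 1) + e (d k + 1) ∉ V)) →
      typ (k + 1) = typ k ∧ lab (k + 1) = lab k)
    (hok : ∀ k, PayOK V p d lp typ lab pay k) {a : ℤ} (hlp : par (d a) ≠ lp)
    {q : List ℕ × List (List ℕ) × List ℕ} (hL : q.1.length = L)
    (hW : ∀ j : ℕ, j < L → q.1.getD j 0 = tc d (a + j)) (hq : chkCert q = true) :
    ∑ k ∈ range L, pay k ≤ 3 * ((L : ℤ) - 9) := by
  obtain ⟨W, C, T⟩ := q
  simp only at hL hW
  unfold chkCert at hq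
  rw [Bool.and_eq_true, Bool.and_eq_true, allN_iff, allN_iff] at hq
  obtain ⟨q1, q2, q3⟩ := hq
  have hL11 : 11 ≤ L := by
    have := Nat.le_of_ble_eq_true q1
    simpa [hL] using this
  have hL0 : 0 < L := by omega
  simp only at q2 q3
  rw [← sum_per hpay (a + L)]
  set Φ : ℕ → ℤ := fun n => ((VT T (n % L) (H V p d (a + n - 1)) (H V p d (a + n)) (typ (a + n - 1))
    (lab (a + n - 1)) : ℕ) : ℤ) with hΦ
  have key : ∀ j < L, pay (a + L + j) + Φ (L + j + 1) ≤
      Φ (L + j) + (if j + 1 = L then 3 * ((L : ℤ) - 9) else 0) := by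
    intro j hj
    have hc := q3 j (by omega)
    unfold chkV at hc
    rw [allB_iff] at hc
    -- vertex index `m = L + j`
    have hm1 : a + ((j + L - 1 : ℕ) : ℤ) = a + L + j - 1 := by
      rw [Nat.cast_sub (by omega)]; push_cast; ring
    have hm2 : a + ((j + L - 2 : ℕ) : ℤ) = a + L + j - 2 := by
      rw [Nat.cast_sub (by omega)]; push_cast; ring
    have hLa : ∀ {α : Type} (f : ℤ → α), (∀ k, f (k + L) = f k) → ∀ m : ℕ,
        f (a + L + m) = f (a + m) := by
      intro α f hf m
      rw [← hf (a + m)]; congr 1; ring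
    -- turn codes
    have t0 : tc d (a + L + j) = cW W j := by
      rw [hLa _ (tc_per hP)]; exact tc_nat hP hL hW hL0 j
    have t1 : tc d (a + L + j + 1) = cW W (j + 1) := by
      rw [← tc_nat hP hL hW hL0 (j + 1), ← hLa _ (tc_per hP)]; congr 1; push_cast; ring
    have t2 : tc d (a + L + j + 2) = cW W (j + 2) := by
      rw [← tc_nat hP hL hW hL0 (j + 2), ← hLa _ (tc_per hP)]; congr 1; push_cast; ring
    have t3 : tc d (a + L + j - 1) = cW W (j + L - 1) := by
      rw [← tc_nat hP hL hW hL0 (j + L - 1), hm1]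
    have t4 : tc d (a + L + j - 2) = cW W (j + L - 2) := by
      rw [← tc_nat hP hL hW hL0 (j + L - 2), hm2]
    have l0 : decide (par (d (a + L + j)) = lp) = lowN W j := by
      rw [hLa _ hP.perd]; exact low_nat hP hL hW hL0 hlp j
    have l1 : decide (par (d (a + L + j - 1)) = lp) = lowN W (j + L - 1) := by
      rw [← low_nat hP hL hW hL0 hlp (j + L - 1), hm1]
    have o0 : okh (cC C W j) (H V p d (a + L + j)) = true := by
      rw [hLa _ (H_per hP)]; exact okh_nat hV hP hL hW hL0 q2 j
    have o1 : okh (cC C W (j + 1)) (H V p d (a + L + j + 1)) = true := by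
      have := okh_nat hV hP hL hW hL0 q2 (j + 1)
      rw [← hLa _ (H_per hP)] at this
      convert this using 3
      push_cast; ring
    have o2 : okh (cC C W (j + L - 1)) (H V p d (a + L + j - 1)) = true := by
      have := okh_nat hV hP hL hW hL0 q2 (j + L - 1)
      rwa [hm1] at this
    have hp := pay_le hP (a + L + j - 1) (hok _)
    rw [show a + L + j - 1 + 1 = a + L + (j : ℤ) by ring,
      show a + L + j - 1 - 1 = a + L + (j : ℤ) - 2 by ring,
      show a + L + j - 1 + 2 = a + L + (j : ℤ) + 1 by ring,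
      show a + L + j - 1 + 3 = a + L + (j : ℤ) + 2 by ring, t0, t1, t2, t3, t4, l0, l1] at hp
    have hc1 := hc (H V p d (a + L + j - 1))
    rw [allB_iff] at hc1
    have hc2 := hc1 (H V p d (a + L + j))
    rw [allB_iff] at hc2
    have hc3 := hc2 (H V p d (a + L + j + 1))
    rw [hL, o2, o0, o1] at hc3
    simp only [Bool.not_true, Bool.false_or] at hc3
    rw [allB_iff] at hc3
    have hc4 := hc3 (typ (a + L + j - 1))
    rw [allB_iff] at hc4
    have hc5 := hc4 (typ (a + L + j))
    rw [allB_iff] at hc5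
    have hc6 := hc5 (lab (a + L + j - 1))
    rw [allB_iff] at hc6
    have hc7 := hc6 (lab (a + L + j))
    rw [Bool.or_eq_true] at hc7
    have hc8 := hc7.resolve_left (by
      intro h
      rw [Bool.and_eq_true, Bool.not_eq_true'] at h
      obtain ⟨hf, hx⟩ := h
      have hk := hconst (a + L + j - 1) (by
        rw [H_eq_false] at hf
        unfold third at hf
        rw [show a + L + j - 1 + 1 = a + L + (j : ℤ) by ring]
        by_cases z : tc d (a + L + j) = 0
        · left; exact (tc_eq_zero _).1 z
        · right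
          rcases turn' hP (a + L + j) with h | h | h
          · exact absurd ((tc_eq_zero _).2 h) z
          · left
            refine ⟨h, fun hv => hf ⟨z, ?_⟩⟩
            rw [if_pos ((tc_eq_one _).2 h)]; exact hv
          · right
            refine ⟨h, fun hv => hf ⟨z, ?_⟩⟩
            rw [if_neg (by rw [(tc_eq_two hP _).2 h]; norm_num)]; exact hv)
      rw [show a + L + j - 1 + 1 = a + L + (j : ℤ) by ring] at hk
      rw [hk.1, hk.2] at hx
      simp at hx)
    have hc9 := Nat.le_of_ble_eq_true hc8
    have hmod0 : (L + j) % L = j := by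
      rw [Nat.add_mod_left, Nat.mod_eq_of_lt hj]
    have hmod1 : (L + j + 1) % L = (j + 1) % L := by
      rw [show L + j + 1 = L + (j + 1) by ring, Nat.add_mod_left]
    have c0 : a + ((L + j : ℕ) : ℤ) = a + L + j := by push_cast; ring
    have c1 : a + ((L + j + 1 : ℕ) : ℤ) = a + L + j + 1 := by push_cast; ring
    have c2 : a + L + (j : ℤ) + 1 - 1 = a + L + j := by ring
    simp only [hΦ]
    rw [hmod0, hmod1, c0, c1, c2]
    have hM : ((if j + 1 = L then 3 * (L - 9) else 0 : ℕ) : ℤ) =
        (if j + 1 = L then 3 * ((L : ℤ) - 9) else 0) := by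
      split_ifs
      · rw [Nat.cast_mul, Nat.cast_sub (by omega)]; norm_num
      · rfl
    rw [← hM]
    have hc10 := (Nat.cast_le (α := ℤ)).2 hc9
    rw [Nat.cast_add, Nat.cast_add] at hc10
    linarith
  have hsum := Finset.sum_le_sum (s := range L) (fun j hj => key j (Finset.mem_range.1 hj))
  rw [Finset.sum_add_distrib, Finset.sum_add_distrib] at hsum
  have htel : ∑ j ∈ range L, Φ (L + j + 1) = ∑ j ∈ range L, Φ (L + j) + (Φ (L + L) - Φ L) := by
    have h1 := Finset.sum_range_succ (fun j : ℕ => Φ (L + j)) L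
    have h2 := Finset.sum_range_succ' (fun j : ℕ => Φ (L + j)) L
    simp only [add_zero] at h2
    have h3 : ∑ j ∈ range L, Φ (L + (j + 1)) = ∑ j ∈ range L, Φ (L + j + 1) := rfl
    linarith
  have hper : Φ (L + L) = Φ L := by
    simp only [hΦ]
    have e0 : (L + L) % L = L % L := by simp
    have e1 : a + ((L + L : ℕ) : ℤ) = (a + L) + L := by push_cast; ring
    have e2 : a + L + (L : ℤ) - 1 = (a + L - 1) + L := by ring
    rw [e0, e1, e2, H_per hP, H_per hP, htyp, hlab]
  have hone : ∑ j ∈ range L, (if j + 1 = L then 3 * ((L : ℤ) - 9) else 0) = 3 * ((L : ℤ) - 9) := by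
    rw [Finset.sum_eq_single (L - 1)]
    · rw [if_pos (by omega)]
    · intro b hb hne
      rw [if_neg (by omega)]
    · intro h
      exact absurd (Finset.mem_range.2 (by omega)) h
  rw [htel, hper, hone] at hsum
  linarith

end poly

end T6

open T6 in
theorem t6 : Stmt_T6 := by
  intro V L p d lp typ lab pay hV hP htyp hlab hpay hconst hok hex
  obtain ⟨a, ha, W, hWm, hWL, hW⟩ := hex
  have hcov := (List.all_eq_true.1 words_covered) W hWm
  rw [Bool.or_eq_true, List.any_eq_true, List.any_eq_true] at hcov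
  rcases hcov with ⟨q, hq, he⟩ | ⟨q, hq, he⟩
  · have he' : q.1 = W := of_decide_eq_true he
    subst he'
    exact main_word hV hP htyp hlab hpay hconst hok ha hWL hW ((List.all_eq_true.1 certs_ok) q hq)
  · have he' : q.1 = W := of_decide_eq_true he
    subst he'
    exact (no_tri hV hP hWL hW (c := q.2) ((List.all_eq_true.1 triCerts_ok) q hq)).elim

end Pool.Agent.H171R2.Tri
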